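import Pool.Agent.NH4.AG.Kr

/-! New Gaussian primes with prescribed symbols, and the first stage: the complete graph. -/

set_option autoImplicit false

namespace Pool.Agent.NH4.AG

open Pool.Agent.Y697.MQ
open Pool.Agent.W164.RC (Ip Ip_spec Ip_one)
open Pool.Agent.NH4.AF

open scoped Classical

theorem exists_rat_prime {z : GaussianInt} (hz : Prime z) :
    ∀ n : ℕ, n ≠ 0 → z ∣ (n : GaussianInt) → ∃ p : ℕ, p.Prime ∧ z ∣ (p : GaussianInt) := by
  intro n
  induction n using Nat.strong_induction_on with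
  | _ n ih =>
    intro h0 hd
    by_cases h1 : n = 1
    · subst h1
      rw [Nat.cast_one] at hd
      exact absurd (isUnit_of_dvd_one hd) hz.not_isUnit
    · obtain ⟨m, hm⟩ := Nat.minFac_dvd n
      have hp := Nat.minFac_prime h1
      rw [hm] at hd
      push_cast at hd
      rcases hz.dvd_or_dvd hd with h2 | h2
      · exact ⟨_, hp, h2⟩
      · have hm0 : m ≠ 0 := by
          rintro rfl
          rw [mul_zero] at hm
          exact h0 hm
        refine ih m ?_ hm0 h2
        conv_rhs => rw [hm]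
        have := hp.two_le
        have hm1 : 0 < m := Nat.pos_of_ne_zero hm0
        nlinarith

/-- a primary prime which is not real has prime norm -/
theorem norm_prime {z : GaussianInt} (hz : OP z) (hs : star z ≠ z) :
    ∃ p : ℕ, p.Prime ∧ p % 4 = 1 ∧ z.norm.natAbs = p := by
  have h0 : z.norm.natAbs ≠ 0 := by
    intro h
    exact hz.pr.ne_zero (GaussianInt.norm_eq_zero.1 (Int.natAbs_eq_zero.1 h))
  have hd : z ∣ ((z.norm.natAbs : ℕ) : GaussianInt) := by
    have h1 : ((z.norm.natAbs : ℕ) : GaussianInt) = ((z.norm : ℤ) : GaussianInt) := by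
      have h2 : ((z.norm.natAbs : ℕ) : ℤ) = z.norm := by
        rw [Int.natCast_natAbs, abs_of_nonneg (GaussianInt.norm_nonneg _)]
      have h3 := congrArg (fun m : ℤ => (m : GaussianInt)) h2
      simp only [Int.cast_natCast] at h3
      exact h3
    rw [h1, Zsqrtd.norm_eq_mul_conj]
    exact dvd_mul_right _ _
  obtain ⟨p, hp, hzp⟩ := exists_rat_prime hz.pr _ h0 hd
  have hp2 : p ≠ 2 := by
    rintro rfl
    exact hz.two (by exact_mod_cast hzp)
  have h4 : p % 4 = 1 ∨ p % 4 = 3 := by
    have := hp.eq_two_or_odd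
    omega
  rcases h4 with h1 | h3
  · obtain ⟨x, hne, hx, hxx, hn⟩ := prime_data hp h1
    rw [← hxx] at hzp
    refine ⟨p, hp, h1, ?_⟩
    rcases hz.pr.dvd_or_dvd hzp with h | h
    · rw [hz.dvd hx h]; exact hn
    · rw [hz.dvd hx.star h, Pool.Agent.H304R2.EC.A1.gnorm_star]; exact hn
  · exfalso
    have hI : -(p : GaussianInt) ∈ Ip p := by
      rw [Pool.Agent.W164.RC.Ip_three h3]; exact Finset.mem_singleton_self _
    obtain ⟨h5, h6, -, -⟩ := Ip_spec hp hI
    have hop : OP (-(p : GaussianInt)) := ⟨h6, (prim_iff_Pr _).1 h5⟩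
    have h7 : z = -(p : GaussianInt) := hz.dvd hop ((dvd_neg).2 hzp)
    apply hs
    rw [h7, star_neg, star_natCast]

theorem gA_comm {x y : GaussianInt} (hx : OP x) (hy : OP y) : gA x y = gA y x := by
  by_cases h : x = y
  · rw [h]
  · unfold gA
    rw [recip hx hy h]

/-- the symbol of conjugate primes -/
theorem gA_conj {x : GaussianInt} (hx : OP x) (hne : star x ≠ x) : gA x (star x) = gθ x := by
  obtain ⟨p, hp, h1, hn⟩ := norm_prime hx hne
  have : Fact p.Prime := ⟨hp⟩
  have hp2 : p ≠ 2 := by rintro rfl; omega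
  rw [gA_comm hx hx.star]
  unfold gA
  have hnd : ¬ x ∣ star x := fun h => hne (hx.dvd hx.star h).symm
  rw [leg_one_deg hx hn h1 (star x) hnd]
  have hnz : (p : ℤ) = x.re * x.re + x.im * x.im := by
    rw [← hn, Int.natCast_natAbs, abs_of_nonneg (GaussianInt.norm_nonneg _), norm_eq]
  have e1 := leg_one_deg hx hn h1 1 (fun h => hx.pr.not_isUnit (isUnit_of_dvd_one h))
  rw [leg_one hx.pr] at e1
  simp only [Zsqrtd.re_one, Zsqrtd.im_one, one_mul, zero_mul, add_zero] at e1
  have e2 : legendreSym p ((star x).re * x.re + (star x).im * x.im) =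
      legendreSym p (2 * (x.re * x.re)) := by
    unfold legendreSym
    congr 1
    rw [Zsqrtd.re_star, Zsqrtd.im_star]
    have h5 : (((x.re * x.re + x.im * x.im : ℤ)) : ZMod p) = 0 := by
      rw [← hnz]
      simp
    push_cast at h5 ⊢
    linear_combination -h5
  rw [e2, legendreSym.mul, legendreSym.mul, ← e1, mul_one, mul_one, gθ_prime hx hn,
    legendreSym.at_two hp2, ZMod.χ₈_nat_eq_if_mod_eight]
  unfold Pool.Agent.NH4.AF.th
  have h5 : p % 8 = 1 ∨ p % 8 = 5 := by omega
  rcases h5 with h5 | h5 <;> simp [h5] <;> omega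

/-- a new prime and its conjugate -/
structure New (P : Finset GaussianInt) (ε : GaussianInt → ZMod 2) (c : ZMod 2)
    (y : GaussianInt) : Prop where
  op : OP y
  th : gθ y = c
  nP : y ∉ P
  nsP : star y ∉ P
  ns : star y ≠ y
  cy : ∀ p ∈ P, gA y p = ε p
  csy : ∀ p ∈ P, gA (star y) p = ε (star p)
  c0 : gA y (star y) = c
  c1 : gA (star y) y = c

theorem sg_iff (x : ZMod 2) : (if sg x = -1 then (1 : ZMod 2) else 0) = x := by
  unfold sg
  rcases z01 x with rfl | rfl <;> simp

/-- **new primes with prescribed symbols** -/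
theorem exists_new {P : Finset GaussianInt} (hP : ∀ p ∈ P, OP p) (hst : ∀ p ∈ P, star p ∈ P)
    {ε : GaussianInt → ZMod 2} {c : ZMod 2} (hc : c = 1 ∨ ∃ p ∈ P, ε p ≠ ε (star p)) :
    {y : GaussianInt | New P ε c y}.Infinite := by
  refine (inf_q P hP ε c).mono ?_
  rintro y ⟨h1, h2, h3, h4⟩
  have hθ : gθ y = c := by
    unfold gθ
    rw [h2]
    exact sg_iff c
  have hsP : star y ∉ P := fun h => h3 (by
    have := hst _ h
    rwa [star_star] at this)
  have hcy : ∀ p ∈ P, gA y p = ε p := by
    intro p hp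
    rw [gA_comm h1 (hP p hp)]
    unfold gA
    rw [h4 p hp]
    exact sg_iff _
  have hcsy : ∀ p ∈ P, gA (star y) p = ε (star p) := by
    intro p hp
    rw [← hcy _ (hst p hp), ← gA_star y (star p), star_star]
  have hns : star y ≠ y := by
    intro h
    rcases hc with hc | ⟨p, hp, hpp⟩
    · refine ne_star_of_ci (g := y) ?_ h
      rw [h2, hc]
      rfl
    · apply hpp
      rw [← hcy p hp, ← hcsy p hp, h]
  have hc0 : gA y (star y) = c := by rw [gA_conj h1 hns, hθ]
  exact ⟨h1, hθ, h3, hsP, hns, hcy, hcsy, hc0, by rw [gA_comm h1.star h1]; exact hc0⟩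

theorem New.mono {P P' : Finset GaussianInt} {ε : GaussianInt → ZMod 2} {c : ZMod 2}
    {y : GaussianInt} (h : New P ε c y) (hs : P' ⊆ P) : New P' ε c y :=
  ⟨h.op, h.th, fun h' => h.nP (hs h'), fun h' => h.nsP (hs h'), h.ns, fun p hp => h.cy p (hs hp),
    fun p hp => h.csy p (hs hp), h.c0, h.c1⟩

/-! ### the complete graph -/

/-- the state of the first construction: the primes in `A` are attached -/
structure StA (S A Q : Finset GaussianInt) : Prop where
  op : ∀ x ∈ Q, OP x
  th : ∀ x ∈ Q, gθ x = 1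
  st : ∀ x ∈ Q, star x ∈ Q
  sn : ∀ x ∈ Q, star x ≠ x
  dS : ∀ x ∈ Q, x ∉ S
  ev : (Q.card : ZMod 2) = 0
  qq : ∀ x ∈ Q, ∀ y ∈ Q, x ≠ y → gA x y = 1
  one : ∀ x ∈ Q, ∀ l ∈ S, ∀ m ∈ S, gA x l ≠ 0 → gA x m ≠ 0 → l = m
  ex : ∀ l ∈ A, ∃ x ∈ Q, gA x l ≠ 0 ∧ ∀ y ∈ Q, gA y l ≠ 0 → y = x
  off : ∀ x ∈ Q, ∀ l ∈ S, l ∉ A → gA x l = 0

variable {S A Q : Finset GaussianInt}

/-- **one step** -/
theorem StA.step (hS : ∀ l ∈ S, OP l) (hSs : ∀ l ∈ S, star l ∈ S) (hSn : ∀ l ∈ S, star l ≠ l)
    (hAS : ∀ l ∈ A, l ∈ S) (hAs : ∀ l ∈ A, star l ∈ A) (h : StA S A Q) {a : GaussianInt}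
    (ha : a ∈ S) (haA : a ∉ A) :
    ∃ Q' : Finset GaussianInt, StA S (insert a (insert (star a) A)) Q' := by
  have hsa : star a ≠ a := hSn a ha
  have hsaA : star a ∉ A := fun h' => haA (by
    have := hAs _ h'
    rwa [star_star] at this)
  -- the symbols of the new prime
  set ε : GaussianInt → ZMod 2 := fun x => if x ∈ Q then 1 else if x = a then 1 else 0 with hε
  have hP : ∀ p ∈ S ∪ Q, OP p := by
    intro p hp
    rcases Finset.mem_union.1 hp with h1 | h1
    · exact hS p h1
    · exact h.op p h1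
  have hPs : ∀ p ∈ S ∪ Q, star p ∈ S ∪ Q := by
    intro p hp
    rcases Finset.mem_union.1 hp with h1 | h1
    · exact Finset.mem_union_left _ (hSs p h1)
    · exact Finset.mem_union_right _ (h.st p h1)
  obtain ⟨y, hy⟩ := (exists_new hP hPs (ε := ε) (c := 1) (Or.inl rfl)).nonempty
  have hSP : ∀ l ∈ S, l ∈ S ∪ Q := fun l hl => Finset.mem_union_left _ hl
  have hQP : ∀ l ∈ Q, l ∈ S ∪ Q := fun l hl => Finset.mem_union_right _ hl
  have hεS : ∀ l ∈ S, ε l = if l = a then 1 else 0 := by
    intro l hl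
    simp only [hε]
    rw [if_neg (fun h' => h.dS l h' hl)]
  have hyQ : ∀ x ∈ Q, gA y x = 1 := fun x hx => by
    rw [hy.cy x (hQP x hx)]
    simp only [hε]
    rw [if_pos hx]
  have hsyQ : ∀ x ∈ Q, gA (star y) x = 1 := fun x hx => by
    rw [hy.csy x (hQP x hx)]
    simp only [hε]
    rw [if_pos (h.st x hx)]
  have hyS : ∀ l ∈ S, gA y l = if l = a then 1 else 0 := fun l hl => by
    rw [hy.cy l (hSP l hl), hεS l hl]
  have hsyS : ∀ l ∈ S, gA (star y) l = if l = star a then 1 else 0 := fun l hl => by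
    rw [hy.csy l (hSP l hl), hεS _ (hSs l hl)]
    have : star l = a ↔ l = star a := by
      constructor
      · intro h'; rw [← h', star_star]
      · intro h'; rw [h', star_star]
    simp only [this]
  have m0 : y ∈ insert y (insert (star y) Q) := Finset.mem_insert_self _ _
  have m1 : star y ∈ insert y (insert (star y) Q) :=
    Finset.mem_insert_of_mem (Finset.mem_insert_self _ _)
  have m2 : ∀ x ∈ Q, x ∈ insert y (insert (star y) Q) := fun x hx =>
    Finset.mem_insert_of_mem (Finset.mem_insert_of_mem hx)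
  have hyQ' : y ∉ Q := fun h' => hy.nP (hQP _ h')
  have hsyQ' : star y ∉ Q := fun h' => hy.nsP (hQP _ h')
  have mem : ∀ {x : GaussianInt}, x ∈ insert y (insert (star y) Q) → x = y ∨ x = star y ∨ x ∈ Q := by
    intro x hx
    rcases Finset.mem_insert.1 hx with h1 | h1
    · exact Or.inl h1
    · rcases Finset.mem_insert.1 h1 with h2 | h2
      · exact Or.inr (Or.inl h2)
      · exact Or.inr (Or.inr h2)
  refine ⟨insert y (insert (star y) Q), ?_, ?_, ?_, ?_, ?_, ?_, fun x hx z hz hxz => ?_,
    fun x hx l hl m hm hxl hxm => ?_, fun l hl => ?_, fun x hx l hl hlA => ?_⟩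
  · intro x hx
    rcases mem hx with rfl | rfl | h1
    · exact hy.op
    · exact hy.op.star
    · exact h.op x h1
  · intro x hx
    rcases mem hx with rfl | rfl | h1
    · exact hy.th
    · rw [gθ_star]; exact hy.th
    · exact h.th x h1
  · intro x hx
    rcases mem hx with rfl | rfl | h1
    · exact m1
    · rw [star_star]; exact m0
    · exact m2 _ (h.st x h1)
  · intro x hx
    rcases mem hx with rfl | rfl | h1
    · exact hy.ns
    · rw [star_star]; exact hy.ns.symm
    · exact h.sn x h1
  · intro x hx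
    rcases mem hx with rfl | rfl | h1
    · exact fun h' => hy.nP (hSP _ h')
    · exact fun h' => hy.nsP (hSP _ h')
    · exact h.dS x h1
  · rw [Finset.card_insert_of_notMem, Finset.card_insert_of_notMem hsyQ']
    · push_cast
      rw [h.ev]
      decide
    · rw [Finset.mem_insert, not_or]
      exact ⟨hy.ns.symm, hyQ'⟩
  · rcases mem hx with rfl | rfl | h1 <;> rcases mem hz with rfl | rfl | h2
    · exact absurd rfl hxz
    · exact hy.c0
    · exact hyQ z h2
    · exact hy.c1
    · exact absurd rfl hxz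
    · exact hsyQ z h2
    · rw [gA_comm (h.op x h1) hy.op]; exact hyQ x h1
    · rw [gA_comm (h.op x h1) hy.op.star]; exact hsyQ x h1
    · exact h.qq x h1 z h2 hxz
  · rcases mem hx with rfl | rfl | h1
    · rw [hyS l hl] at hxl
      rw [hyS m hm] at hxm
      rw [show l = a by by_contra h'; rw [if_neg h'] at hxl; exact hxl rfl,
        show m = a by by_contra h'; rw [if_neg h'] at hxm; exact hxm rfl]
    · rw [hsyS l hl] at hxl
      rw [hsyS m hm] at hxm
      rw [show l = star a by by_contra h'; rw [if_neg h'] at hxl; exact hxl rfl,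
        show m = star a by by_contra h'; rw [if_neg h'] at hxm; exact hxm rfl]
    · exact h.one x h1 l hl m hm hxl hxm
  · rcases Finset.mem_insert.1 hl with rfl | hl
    · refine ⟨y, m0, by rw [hyS l ha, if_pos rfl]; exact one_ne_zero, fun x hx hx1 => ?_⟩
      rcases mem hx with rfl | rfl | h3
      · rfl
      · rw [hsyS l ha, if_neg hsa.symm] at hx1
        exact absurd rfl hx1
      · exact absurd (h.off x h3 l ha haA) hx1
    · rcases Finset.mem_insert.1 hl with rfl | hl
      · refine ⟨star y, m1, by rw [hsyS _ (hSs a ha), if_pos rfl]; exact one_ne_zero,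
          fun x hx hx1 => ?_⟩
        rcases mem hx with rfl | rfl | h3
        · rw [hyS _ (hSs a ha), if_neg hsa] at hx1
          exact absurd rfl hx1
        · rfl
        · exact absurd (h.off x h3 _ (hSs a ha) hsaA) hx1
      · obtain ⟨x, hx, hx1, hx2⟩ := h.ex l hl
        have hla : l ≠ a := fun h' => haA (h' ▸ hl)
        have hlsa : l ≠ star a := fun h' => hsaA (h' ▸ hl)
        refine ⟨x, m2 x hx, hx1, fun z hz hz1 => ?_⟩
        rcases mem hz with rfl | rfl | h3
        · rw [hyS l (hAS l hl), if_neg hla] at hz1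
          exact absurd rfl hz1
        · rw [hsyS l (hAS l hl), if_neg hlsa] at hz1
          exact absurd rfl hz1
        · exact hx2 z h3 hz1
  · have hla : l ≠ a := fun h' => hlA (by rw [h']; exact Finset.mem_insert_self _ _)
    have hlsa : l ≠ star a := fun h' => hlA (by
      rw [h']; exact Finset.mem_insert_of_mem (Finset.mem_insert_self _ _))
    have hlA' : l ∉ A := fun h' => hlA (Finset.mem_insert_of_mem (Finset.mem_insert_of_mem h'))
    rcases mem hx with rfl | rfl | h3
    · rw [hyS l hl, if_neg hla]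
    · rw [hsyS l hl, if_neg hlsa]
    · exact h.off x h3 l hl hlA'

/-- **all the primes in `S` can be attached** -/
theorem exists_StA (hS : ∀ l ∈ S, OP l) (hSs : ∀ l ∈ S, star l ∈ S) (hSn : ∀ l ∈ S, star l ≠ l) :
    ∃ Q : Finset GaussianInt, StA S S Q := by
  have key : ∀ n : ℕ, ∀ A Q : Finset GaussianInt, (∀ l ∈ A, l ∈ S) → (∀ l ∈ A, star l ∈ A) →
      StA S A Q → (S \ A).card = n → ∃ Q' : Finset GaussianInt, StA S S Q' := by
    intro n
    induction n using Nat.strong_induction_on with
    | _ n ih =>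
      intro A Q hAS hAs hSt hn
      by_cases hex : ∃ a ∈ S, a ∉ A
      · obtain ⟨a, ha, haA⟩ := hex
        obtain ⟨Q', h1⟩ := hSt.step hS hSs hSn hAS hAs ha haA
        refine ih _ ?_ _ Q' ?_ ?_ h1 rfl
        · rw [← hn]
          apply Finset.card_lt_card
          rw [Finset.ssubset_iff_of_subset]
          · refine ⟨a, Finset.mem_sdiff.2 ⟨ha, haA⟩, fun h3 => ?_⟩
            exact (Finset.mem_sdiff.1 h3).2 (Finset.mem_insert_self _ _)
          · exact Finset.sdiff_subset_sdiff (Finset.Subset.refl _)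
              ((Finset.subset_insert _ _).trans (Finset.subset_insert _ _))
        · intro l hl
          rcases Finset.mem_insert.1 hl with rfl | hl
          · exact ha
          · rcases Finset.mem_insert.1 hl with rfl | hl
            · exact hSs a ha
            · exact hAS l hl
        · intro l hl
          rcases Finset.mem_insert.1 hl with rfl | hl
          · exact Finset.mem_insert_of_mem (Finset.mem_insert_self _ _)
          · rcases Finset.mem_insert.1 hl with rfl | hl
            · rw [star_star]; exact Finset.mem_insert_self _ _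
            · exact Finset.mem_insert_of_mem (Finset.mem_insert_of_mem (hAs l hl))
      · push Not at hex
        have hAS' : A = S := Finset.Subset.antisymm hAS hex
        exact ⟨Q, hAS' ▸ hSt⟩
  refine key _ ∅ ∅ (by simp) (by simp) ⟨?_, ?_, ?_, ?_, ?_, ?_, ?_, ?_, ?_, ?_⟩ rfl
  all_goals simp

end Pool.Agent.NH4.AG
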