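import Pool.Agent.NH4.AG.Ex

/-! The second stage: the primes of norm `5` modulo `8`; the third stage: isolated primes. -/

set_option autoImplicit false

namespace Pool.Agent.NH4.AG

open Pool.Agent.Y697.MQ
open Pool.Agent.NH4.AF

open scoped Classical

/-- the symbols, modified at the conjugate pairs in `E` -/
noncomputable def mA (E : Finset GaussianInt) (v u : GaussianInt) : ZMod 2 :=
  gA v u + if v ∈ E ∧ u = star v then 1 else 0

/-- the weights, modified at the primes in `E` -/
noncomputable def mθ (E : Finset GaussianInt) (v : GaussianInt) : ZMod 2 :=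
  gθ v + if v ∈ E then 1 else 0

/-- the state of the second construction -/
structure StB (S E Q : Finset GaussianInt) : Prop where
  op : ∀ x ∈ Q, OP x
  st : ∀ x ∈ Q, star x ∈ Q
  sn : ∀ x ∈ Q, star x ≠ x
  dS : ∀ x ∈ Q, x ∉ S
  kr : ∀ U ⊆ S, Kr (mA E) (mθ E) (Q ∪ U)

variable {S E Q : Finset GaussianInt}

/-- **the start** -/
theorem exists_StB (hS : ∀ l ∈ S, OP l) (hSs : ∀ l ∈ S, star l ∈ S) (hSn : ∀ l ∈ S, star l ≠ l) :
    ∃ Q : Finset GaussianInt, StB S (S.filter fun l => gθ l = 1) Q := by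
  obtain ⟨Q, h⟩ := exists_StA hS hSs hSn
  refine ⟨Q, h.op, h.st, h.sn, h.dS, fun U hU => ?_⟩
  have hnE : ∀ x ∈ Q, x ∉ S.filter fun l => gθ l = 1 := fun x hx h' =>
    h.dS x hx (Finset.mem_filter.1 h').1
  have hsymA : ∀ x ∈ Q, ∀ l ∈ U, mA (S.filter fun l => gθ l = 1) l x = gA x l := by
    intro x hx l hl
    unfold mA
    rw [if_neg, add_zero, gA_comm (hS l (hU hl)) (h.op x hx)]
    rintro ⟨-, h1⟩
    exact h.dS x hx (h1 ▸ hSs l (hU hl))
  have hxA : ∀ x ∈ Q, ∀ u, mA (S.filter fun l => gθ l = 1) x u = gA x u := by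
    intro x hx u
    unfold mA
    rw [if_neg (fun h' => hnE x hx h'.1), add_zero]
  refine Kr.base ?_ h.ev ?_ ?_ ?_ ?_ ?_ ?_
  · rw [Finset.disjoint_left]
    exact fun x hx hxU => h.dS x hx (hU hxU)
  · intro x hx
    unfold mθ
    rw [if_neg (hnE x hx), add_zero, h.th x hx]
  · intro x hx y hy hxy
    rw [hxA x hx, h.qq x hx y hy hxy]
  · intro l hl
    unfold mθ
    rcases z01 (gθ l) with h1 | h1
    · rw [if_neg, h1, add_zero]
      intro h'
      rw [(Finset.mem_filter.1 h').2] at h1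
      exact one_ne_zero h1
    · rw [if_pos (Finset.mem_filter.2 ⟨hU hl, h1⟩), h1]
      rfl
  · intro x hx l hl
    rw [hsymA x hx l hl, hxA x hx]
  · intro x hx l hl m hm h1 h2
    rw [hxA x hx] at h1 h2
    exact h.one x hx l (hU hl) m (hU hm) h1 h2
  · intro l hl
    obtain ⟨x, hx, h1, h2⟩ := h.ex l (hU hl)
    refine ⟨x, hx, by rw [hxA x hx]; exact h1, fun y hy h3 => ?_⟩
    rw [hxA y hy] at h3
    exact h2 y hy h3

/-- **one step** -/
theorem StB.step (hS : ∀ l ∈ S, OP l) (hSs : ∀ l ∈ S, star l ∈ S) (hSn : ∀ l ∈ S, star l ≠ l)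
    (h : StB S E Q) (hE : ∀ l ∈ E, l ∈ S) (hEs : ∀ l ∈ E, star l ∈ E) {a : GaussianInt}
    (ha : a ∈ E) :
    ∃ Q' : Finset GaussianInt, StB S ((E.erase a).erase (star a)) Q' := by
  have haS := hE a ha
  have hsa : star a ≠ a := hSn a haS
  have hsaS : star a ∈ S := hSs a haS
  have hss : ∀ l : GaussianInt, star l = a ↔ l = star a := fun l => by
    constructor
    · intro h'; rw [← h', star_star]
    · intro h'; rw [h', star_star]
  have hP : ∀ p ∈ S ∪ Q, OP p := by
    intro p hp
    rcases Finset.mem_union.1 hp with h1 | h1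
    · exact hS p h1
    · exact h.op p h1
  have hPs : ∀ p ∈ S ∪ Q, star p ∈ S ∪ Q := by
    intro p hp
    rcases Finset.mem_union.1 hp with h1 | h1
    · exact Finset.mem_union_left _ (hSs p h1)
    · exact Finset.mem_union_right _ (h.st p h1)
  have haP : a ∈ S ∪ Q := Finset.mem_union_left _ haS
  have hsaP : star a ∈ S ∪ Q := Finset.mem_union_left _ hsaS
  obtain ⟨y, hy⟩ := (exists_new hP hPs (ε := fun x => if x = a then 1 else 0) (c := 0)
    (Or.inr ⟨a, haP, by
      simp only [if_neg hsa]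
      exact one_ne_zero⟩)).nonempty
  set P1 := insert y (insert (star y) (S ∪ Q)) with hP1
  have hP1o : ∀ p ∈ P1, OP p := by
    intro p hp
    rcases Finset.mem_insert.1 hp with rfl | hp
    · exact hy.op
    · rcases Finset.mem_insert.1 hp with rfl | hp
      · exact hy.op.star
      · exact hP p hp
  have hP1s : ∀ p ∈ P1, star p ∈ P1 := by
    intro p hp
    rcases Finset.mem_insert.1 hp with rfl | hp
    · exact Finset.mem_insert_of_mem (Finset.mem_insert_self _ _)
    · rcases Finset.mem_insert.1 hp with rfl | hp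
      · rw [star_star]; exact Finset.mem_insert_self _ _
      · exact Finset.mem_insert_of_mem (Finset.mem_insert_of_mem (hPs p hp))
  obtain ⟨z, hz⟩ := (exists_new hP1o hP1s (ε := fun x => if x = a ∨ x = star y then 1 else 0)
    (c := 1) (Or.inl rfl)).nonempty
  have PP1 : ∀ p ∈ S ∪ Q, p ∈ P1 := fun p hp =>
    Finset.mem_insert_of_mem (Finset.mem_insert_of_mem hp)
  have yP1 : y ∈ P1 := Finset.mem_insert_self _ _
  have syP1 : star y ∈ P1 := Finset.mem_insert_of_mem (Finset.mem_insert_self _ _)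
  have hya : y ≠ a := fun h' => hy.nP (h' ▸ haP)
  have hysa : y ≠ star a := fun h' => hy.nP (h' ▸ hsaP)
  have hsya : star y ≠ a := fun h' => hysa ((hss y).1 h')
  have hsysa : star y ≠ star a := fun h' => hya (star_injective h')
  -- symbols
  have cyP : ∀ p ∈ S ∪ Q, gA y p = if p = a then 1 else 0 := fun p hp => hy.cy p hp
  have csyP : ∀ p ∈ S ∪ Q, gA (star y) p = if p = star a then 1 else 0 := fun p hp => by
    rw [hy.csy p hp]
    simp only [hss]
  have ne1 : ∀ p ∈ S ∪ Q, p ≠ star y := fun p hp h' => hy.nsP (h' ▸ hp)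
  have ne2 : ∀ p ∈ S ∪ Q, star p ≠ star y := fun p hp h' => hy.nP ((star_injective h') ▸ hp)
  have czP : ∀ p ∈ S ∪ Q, gA z p = if p = a then 1 else 0 := fun p hp => by
    rw [hz.cy p (PP1 p hp)]
    simp only [ne1 p hp, or_false]
  have cszP : ∀ p ∈ S ∪ Q, gA (star z) p = if p = star a then 1 else 0 := fun p hp => by
    rw [hz.csy p (PP1 p hp)]
    simp only [ne2 p hp, or_false, hss]
  have czy : gA z y = 0 := by
    rw [hz.cy y yP1, if_neg]
    rintro (h' | h')
    · exact hya h'
    · exact hy.ns h'.symm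
  have czsy : gA z (star y) = 1 := by
    rw [hz.cy _ syP1, if_pos (Or.inr rfl)]
  have cszy : gA (star z) y = 1 := by
    rw [hz.csy y yP1, if_pos (Or.inr rfl)]
  have cszsy : gA (star z) (star y) = 0 := by
    rw [gA_star]; exact czy
  have hyz : y ≠ z := fun h' => hz.nP (h' ▸ yP1)
  have hysz : y ≠ star z := fun h' => hz.nsP (h' ▸ yP1)
  have hsyz : star y ≠ z := fun h' => hz.nP (h' ▸ syP1)
  have hsysz : star y ≠ star z := fun h' => hyz (star_injective h')
  set E' := (E.erase a).erase (star a) with hE'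
  have hE'S : ∀ l ∈ E', l ∈ S := fun l hl =>
    hE l (Finset.mem_of_mem_erase (Finset.mem_of_mem_erase hl))
  have nE : ∀ v, v ∉ S → v ∉ E' := fun v hv h' => hv (hE'S v h')
  have hzP : z ∉ S ∪ Q := fun h' => hz.nP (PP1 z h')
  have hszP : star z ∉ S ∪ Q := fun h' => hz.nsP (PP1 _ h')
  have nS : ∀ {v : GaussianInt}, v ∉ S ∪ Q → v ∉ S := fun hv h' => hv (Finset.mem_union_left _ h')
  have m1 : ∀ v u, v ∉ S → mA E' v u = gA v u := by
    intro v u hv
    unfold mA
    rw [if_neg (fun h' => nE v hv h'.1), add_zero]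
  have m2 : ∀ v ∈ S ∪ Q, ∀ u, u ∉ S ∪ Q → mA E' v u = gA v u := by
    intro v hv u hu
    unfold mA
    rw [if_neg, add_zero]
    rintro ⟨h1, h2⟩
    exact hu (h2 ▸ Finset.mem_union_left _ (hSs v (hE'S v h1)))
  have tS : ∀ v, v ∉ S → mθ E' v = gθ v := by
    intro v hv
    unfold mθ
    rw [if_neg (nE v hv), add_zero]
  refine ⟨insert y (insert (star y) (insert z (insert (star z) Q))), ?_, ?_, ?_, ?_, fun U hU => ?_⟩
  · intro x hx
    simp only [Finset.mem_insert] at hx
    rcases hx with rfl | rfl | rfl | rfl | hx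
    · exact hy.op
    · exact hy.op.star
    · exact hz.op
    · exact hz.op.star
    · exact h.op x hx
  · intro x hx
    simp only [Finset.mem_insert] at hx ⊢
    rcases hx with rfl | rfl | rfl | rfl | hx
    · exact Or.inr (Or.inl rfl)
    · rw [star_star]; exact Or.inl rfl
    · exact Or.inr (Or.inr (Or.inr (Or.inl rfl)))
    · rw [star_star]; exact Or.inr (Or.inr (Or.inl rfl))
    · exact Or.inr (Or.inr (Or.inr (Or.inr (h.st x hx))))
  · intro x hx
    simp only [Finset.mem_insert] at hx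
    rcases hx with rfl | rfl | rfl | rfl | hx
    · exact hy.ns
    · rw [star_star]; exact hy.ns.symm
    · exact hz.ns
    · rw [star_star]; exact hz.ns.symm
    · exact h.sn x hx
  · intro x hx
    simp only [Finset.mem_insert] at hx
    rcases hx with rfl | rfl | rfl | rfl | hx
    · exact nS hy.nP
    · exact nS hy.nsP
    · exact nS hzP
    · exact nS hszP
    · exact h.dS x hx
  · have hWP : ∀ x ∈ Q ∪ U, x ∈ S ∪ Q := by
      intro x hx
      rcases Finset.mem_union.1 hx with h1 | h1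
      · exact Finset.mem_union_right _ h1
      · exact Finset.mem_union_left _ (hU h1)
    have hW : insert y (insert (star y) (insert z (insert (star z) Q))) ∪ U =
        insert y (insert (star y) (insert z (insert (star z) (Q ∪ U)))) := by
      simp only [Finset.insert_union]
    rw [hW]
    have y0 := nS hy.nP
    have y1 := nS hy.nsP
    have z0 := nS hzP
    have z1 := nS hszP
    refine Kr.four (h.kr U hU) hsa.symm (fun h' => hy.nP (hWP _ h')) (fun h' => hy.nsP (hWP _ h'))
      (fun h' => hzP (hWP _ h')) (fun h' => hszP (hWP _ h')) hy.ns.symm hyz hysz hsyz hsysz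
      hz.ns.symm ?_ ?_ ?_ ?_ ?_ ?_ ?_ ?_ ?_ ?_ ?_ ?_ ?_ ?_ ?_ ?_ ?_ ?_ ?_ ?_ ?_ ?_ ?_ ?_ ?_ ?_
    · rw [tS _ y0, hy.th]
    · rw [tS _ y1, gθ_star, hy.th]
    · rw [tS _ z0, hz.th]
    · rw [tS _ z1, gθ_star, hz.th]
    · rw [m1 _ _ y0, hy.c0]
    · rw [m1 _ _ y1, hy.c1]
    · rw [m1 _ _ y0, gA_comm hy.op hz.op, czy]
    · rw [m1 _ _ z0, czy]
    · rw [m1 _ _ y1, gA_comm hy.op.star hz.op.star, cszsy]
    · rw [m1 _ _ z1, cszsy]
    · rw [m1 _ _ y0, gA_comm hy.op hz.op.star, cszy]
    · rw [m1 _ _ z1, cszy]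
    · rw [m1 _ _ y1, gA_comm hy.op.star hz.op, czsy]
    · rw [m1 _ _ z0, czsy]
    · rw [m1 _ _ z0, hz.c0]
    · rw [m1 _ _ z1, hz.c1]
    · intro u hu
      rw [m1 _ _ y0, cyP u (hWP u hu)]
    · intro u hu
      rw [m2 u (hWP u hu) _ hy.nP, gA_comm (hP u (hWP u hu)) hy.op, cyP u (hWP u hu)]
    · intro u hu
      rw [m1 _ _ z0, czP u (hWP u hu)]
    · intro u hu
      rw [m2 u (hWP u hu) _ hzP, gA_comm (hP u (hWP u hu)) hz.op, czP u (hWP u hu)]
    · intro u hu
      rw [m1 _ _ y1, csyP u (hWP u hu)]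
    · intro u hu
      rw [m2 u (hWP u hu) _ hy.nsP, gA_comm (hP u (hWP u hu)) hy.op.star, csyP u (hWP u hu)]
    · intro u hu
      rw [m1 _ _ z1, cszP u (hWP u hu)]
    · intro u hu
      rw [m2 u (hWP u hu) _ hszP, gA_comm (hP u (hWP u hu)) hz.op.star, cszP u (hWP u hu)]
    · intro v hv u hu
      unfold mA
      rw [add_assoc]
      congr 1
      by_cases hva : v = a
      · subst hva
        have e1 : v ∉ E' := fun h' => Finset.notMem_erase v E (Finset.mem_of_mem_erase h')
        simp only [e1, ha, true_and, false_and, if_false, zero_add, hsa.symm, add_zero]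
      · by_cases hvs : v = star a
        · have e1 : v ∉ E' := by rw [hvs]; exact Finset.notMem_erase _ _
          have e2 : v ∈ E := by rw [hvs]; exact hEs a ha
          have e3 : star v = a := (hss v).2 hvs
          simp only [e1, e2, e3, hva, true_and, false_and, if_false, zero_add]
          simp only [hvs, true_and]
        · have e1 : v ∈ E' ↔ v ∈ E := by
            rw [hE', Finset.mem_erase, Finset.mem_erase]
            exact ⟨fun h' => h'.2.2, fun h' => ⟨hvs, hva, h'⟩⟩
          simp only [e1, hva, hvs, false_and, if_false, add_zero]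
    · intro v hv
      unfold mθ
      rw [add_assoc]
      congr 1
      by_cases hva : v = a
      · subst hva
        have e1 : v ∉ E' := fun h' => Finset.notMem_erase v E (Finset.mem_of_mem_erase h')
        simp only [e1, ha, if_true, if_false, zero_add, hsa.symm, add_zero]
      · by_cases hvs : v = star a
        · have e1 : v ∉ E' := by rw [hvs]; exact Finset.notMem_erase _ _
          have e2 : v ∈ E := by rw [hvs]; exact hEs a ha
          rw [if_neg e1, if_pos e2, if_neg hva, if_pos hvs]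
          rfl
        · have e1 : v ∈ E' ↔ v ∈ E := by
            rw [hE', Finset.mem_erase, Finset.mem_erase]
            exact ⟨fun h' => h'.2.2, fun h' => ⟨hvs, hva, h'⟩⟩
          simp only [e1, hva, hvs, if_false, add_zero]

/-- **the gadget** -/
theorem exists_gadget (hS : ∀ l ∈ S, OP l) (hSs : ∀ l ∈ S, star l ∈ S)
    (hSn : ∀ l ∈ S, star l ≠ l) : ∃ Q : Finset GaussianInt, (∀ x ∈ Q, OP x) ∧
      (∀ x ∈ Q, star x ∈ Q) ∧ (∀ x ∈ Q, star x ≠ x) ∧ (∀ x ∈ Q, x ∉ S) ∧
      ∀ U ⊆ S, Kr gA gθ (Q ∪ U) := by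
  have key : ∀ n : ℕ, ∀ E Q : Finset GaussianInt, (∀ l ∈ E, l ∈ S) → (∀ l ∈ E, star l ∈ E) →
      StB S E Q → E.card = n → ∃ Q' : Finset GaussianInt, StB S ∅ Q' := by
    intro n
    induction n using Nat.strong_induction_on with
    | _ n ih =>
      intro E Q hE hEs hSt hn
      rcases E.eq_empty_or_nonempty with rfl | ⟨a, ha⟩
      · exact ⟨Q, hSt⟩
      · obtain ⟨Q', h1⟩ := hSt.step hS hSs hSn hE hEs ha
        have hsub : (E.erase a).erase (star a) ⊆ E :=
          (Finset.erase_subset _ _).trans (Finset.erase_subset _ _)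
        refine ih _ ?_ _ Q' (fun l hl => hE l (hsub hl)) ?_ h1 rfl
        · rw [← hn]
          refine Finset.card_lt_card ⟨hsub, fun h' => ?_⟩
          exact Finset.notMem_erase a E (Finset.mem_of_mem_erase (h' ha))
        · intro l hl
          obtain ⟨h2, h3⟩ := Finset.mem_erase.1 hl
          obtain ⟨h4, h5⟩ := Finset.mem_erase.1 h3
          refine Finset.mem_erase.2 ⟨fun h' => h4 (star_injective h'), Finset.mem_erase.2
            ⟨fun h' => h2 (by rw [← h', star_star]), hEs l h5⟩⟩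
  obtain ⟨Q0, h0⟩ := exists_StB hS hSs hSn
  obtain ⟨Q, h⟩ := key _ _ Q0 (fun l hl => (Finset.mem_filter.1 hl).1) (fun l hl => by
    rw [Finset.mem_filter] at hl ⊢
    exact ⟨hSs l hl.1, by rw [gθ_star]; exact hl.2⟩) h0 rfl
  refine ⟨Q, h.op, h.st, h.sn, h.dS, fun U hU => (h.kr U hU).congr ?_ ?_⟩
  · intro v _ u _
    simp [mA]
  · intro v _
    simp [mθ]

/-! ### isolated primes -/

/-- the relation of two isolated primes -/
def Rel (x y : GaussianInt) : Prop := x ≠ y ∧ star x ≠ y ∧ gA x y = 0 ∧ gA y x = 0 ∧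
  gA x (star y) = 0 ∧ gA y (star x) = 0

theorem Rel.symm {x y : GaussianInt} (h : Rel x y) : Rel y x :=
  ⟨h.1.symm, fun h' => h.2.1 (by rw [← h', star_star]), h.2.2.2.1, h.2.2.1, h.2.2.2.2.2, h.2.2.2.2.1⟩

theorem exists_seq {P : Finset GaussianInt} (hP : ∀ p ∈ P, OP p) (hst : ∀ p ∈ P, star p ∈ P) :
    ∃ f : ℕ → GaussianInt, (∀ n, New P 0 1 (f n)) ∧ ∀ m n, m ≠ n → Rel (f m) (f n) := by
  have hsym : Std.Symm Rel := ⟨fun x y h => h.symm⟩
  obtain ⟨f, f1, f2⟩ := exists_seq_of_forall_finset_exists' (fun y : GaussianInt => New P 0 1 y)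
    Rel (by
    intro s hs
    have hP' : ∀ p ∈ P ∪ (s ∪ s.image star), OP p := by
      intro p hp
      rcases Finset.mem_union.1 hp with h | h
      · exact hP p h
      · rcases Finset.mem_union.1 h with h | h
        · exact (hs p h).op
        · obtain ⟨z, hz, rfl⟩ := Finset.mem_image.1 h
          exact (hs z hz).op.star
    have hst' : ∀ p ∈ P ∪ (s ∪ s.image star), star p ∈ P ∪ (s ∪ s.image star) := by
      intro p hp
      rcases Finset.mem_union.1 hp with h | h
      · exact Finset.mem_union_left _ (hst p h)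
      · rcases Finset.mem_union.1 h with h | h
        · exact Finset.mem_union_right _ (Finset.mem_union_right _ (Finset.mem_image_of_mem _ h))
        · obtain ⟨z, hz, rfl⟩ := Finset.mem_image.1 h
          rw [star_star]
          exact Finset.mem_union_right _ (Finset.mem_union_left _ hz)
    obtain ⟨y, hy⟩ := (exists_new hP' hst' (ε := 0) (c := 1) (Or.inl rfl)).nonempty
    refine ⟨y, hy.mono Finset.subset_union_left, fun x hx => ?_⟩
    have hx' := hs x hx
    have m1 : x ∈ P ∪ (s ∪ s.image star) :=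
      Finset.mem_union_right _ (Finset.mem_union_left _ hx)
    have m2 : star x ∈ P ∪ (s ∪ s.image star) :=
      Finset.mem_union_right _ (Finset.mem_union_right _ (Finset.mem_image_of_mem _ hx))
    have n1 : x ≠ y := fun h => hy.nP (h ▸ m1)
    have n2 : star x ≠ y := fun h => hy.nP (h ▸ m2)
    have c1 : gA y x = 0 := by rw [hy.cy x m1]; rfl
    have c2 : gA y (star x) = 0 := by rw [hy.cy _ m2]; rfl
    have c3 : gA (star y) x = 0 := by rw [hy.csy x m1]; rfl
    refine ⟨n1, n2, ?_, c1, ?_, c2⟩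
    · rw [gA_comm hx'.op hy.op]; exact c1
    · rw [gA_comm hx'.op hy.op.star]; exact c3)
  exact ⟨f, f1, fun m n hmn => f2 hmn⟩

/-- the leaves -/
def Lv (f : ℕ → GaussianInt) : Set GaussianInt := {x | ∃ k, x = f (2 * k) ∨ x = star (f (2 * k))}

/-- the primes of the number -/
noncomputable def Qn (Q : Finset GaussianInt) (f : ℕ → GaussianInt) (n : ℕ) : Finset GaussianInt :=
  insert (f (2 * n + 1)) (insert (star (f (2 * n + 1))) Q)

/-- **the infinite tower, and infinitely many numbers** -/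
theorem exists_all (hS : ∀ l ∈ S, OP l) (hSs : ∀ l ∈ S, star l ∈ S) (hSn : ∀ l ∈ S, star l ≠ l) :
    ∃ (Q : Finset GaussianInt) (f : ℕ → GaussianInt),
      (∀ n, ∀ x ∈ Qn Q f n, OP x ∧ star x ∈ Qn Q f n ∧ star x ≠ x) ∧
      (∀ n, OP (f n) ∧ star (f n) ≠ f n) ∧
      (∀ m n, m ≠ n → f m ≠ f n ∧ star (f m) ≠ f n) ∧
      (∀ n, f n ∉ Q) ∧
      ∀ n, ∀ U : Finset GaussianInt, (∀ l ∈ U, l ∈ (S : Set GaussianInt) ∪ Lv f) →
        Disjoint (Qn Q f n) U ∧ Kr gA gθ (Qn Q f n ∪ U) := by
  obtain ⟨Q, q1, q2, q3, q4, q5⟩ := exists_gadget hS hSs hSn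
  have hP : ∀ p ∈ S ∪ Q, OP p := by
    intro p hp
    rcases Finset.mem_union.1 hp with h1 | h1
    · exact hS p h1
    · exact q1 p h1
  have hPs : ∀ p ∈ S ∪ Q, star p ∈ S ∪ Q := by
    intro p hp
    rcases Finset.mem_union.1 hp with h1 | h1
    · exact Finset.mem_union_left _ (hSs p h1)
    · exact Finset.mem_union_right _ (q2 p h1)
  obtain ⟨f, f1, f2⟩ := exists_seq hP hPs
  -- all the isolated primes
  have two : ∀ m n, m ≠ n → ∀ x y : GaussianInt, (x = f m ∨ x = star (f m)) →
      (y = f n ∨ y = star (f n)) → x ≠ y ∧ gA x y = 0 := by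
    intro m n hmn x y hx hy
    obtain ⟨r1, r2, r3, r4, r5, r6⟩ := f2 m n hmn
    have pm := (f1 m).op
    have pn := (f1 n).op
    rcases hx with rfl | rfl <;> rcases hy with rfl | rfl
    · exact ⟨r1, r3⟩
    · exact ⟨fun h => r2 (by rw [h, star_star]), r5⟩
    · exact ⟨r2, by rw [gA_comm pm.star pn]; exact r6⟩
    · exact ⟨fun h => r1 (star_injective h), by rw [gA_star]; exact r3⟩
  have iso : ∀ n, ∀ x : GaussianInt, (x = f n ∨ x = star (f n)) → OP x ∧ gθ x = 1 ∧ x ∉ S ∪ Q ∧
      star x ∉ S ∪ Q ∧ gA x (star x) = 1 ∧ (∀ p ∈ S ∪ Q, gA x p = 0) := by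
    intro n x hx
    have h := f1 n
    rcases hx with rfl | rfl
    · exact ⟨h.op, h.th, h.nP, h.nsP, h.c0, fun p hp => by rw [h.cy p hp]; rfl⟩
    · refine ⟨h.op.star, by rw [gθ_star]; exact h.th, h.nsP, by rw [star_star]; exact h.nP,
        by rw [star_star]; exact h.c1, fun p hp => by rw [h.csy p hp]; rfl⟩
  have memQ : ∀ n x, x ∈ Qn Q f n → (x = f (2 * n + 1) ∨ x = star (f (2 * n + 1))) ∨ x ∈ Q := by
    intro n x hx
    rcases Finset.mem_insert.1 hx with h1 | h1
    · exact Or.inl (Or.inl h1)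
    · rcases Finset.mem_insert.1 h1 with h2 | h2
      · exact Or.inl (Or.inr h2)
      · exact Or.inr h2
  refine ⟨Q, f, fun n x hx => ?_, fun n => ⟨(f1 n).op, (f1 n).ns⟩,
    fun m n hmn => ⟨(f2 m n hmn).1, (f2 m n hmn).2.1⟩,
    fun n h => (f1 n).nP (Finset.mem_union_right _ h), fun n U hU => ⟨?_, ?_⟩⟩
  · rcases memQ n x hx with (rfl | rfl) | h1
    · exact ⟨(f1 _).op, Finset.mem_insert_of_mem (Finset.mem_insert_self _ _), (f1 _).ns⟩
    · refine ⟨(f1 _).op.star, ?_, ?_⟩
      · rw [star_star]; exact Finset.mem_insert_self _ _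
      · rw [star_star]; exact (f1 _).ns.symm
    · exact ⟨q1 x h1, Finset.mem_insert_of_mem (Finset.mem_insert_of_mem (q2 x h1)), q3 x h1⟩
  · rw [Finset.disjoint_left]
    intro x hx hxU
    rcases hU x hxU with h2 | ⟨k, hk⟩
    · rcases memQ n x hx with h1 | h1
      · exact (iso _ x h1).2.2.1 (Finset.mem_union_left _ h2)
      · exact q4 x h1 h2
    · rcases memQ n x hx with h1 | h1
      · exact (two (2 * n + 1) (2 * k) (by omega) x x h1 hk).1 rfl
      · exact (iso _ x hk).2.2.1 (Finset.mem_union_right _ h1)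
  · -- the decomposition
    set Z : Finset GaussianInt :=
      insert (f (2 * n + 1)) (insert (star (f (2 * n + 1))) (U.filter fun l => l ∉ S)) with hZ
    have hWZ : Qn Q f n ∪ U = (Q ∪ U.filter fun l => l ∈ S) ∪ Z := by
      ext x
      simp only [hZ, Qn, Finset.mem_union, Finset.mem_insert, Finset.mem_filter]
      tauto
    have hZi : ∀ x ∈ Z, ∃ m, x = f m ∨ x = star (f m) := by
      intro x hx
      rcases Finset.mem_insert.1 hx with h1 | h1
      · exact ⟨_, Or.inl h1⟩
      · rcases Finset.mem_insert.1 h1 with h2 | h2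
        · exact ⟨_, Or.inr h2⟩
        · obtain ⟨h3, h4⟩ := Finset.mem_filter.1 h2
          rcases hU x h3 with h5 | ⟨k, hk⟩
          · exact absurd h5 h4
          · exact ⟨_, hk⟩
    have hWP : ∀ x ∈ Q ∪ U.filter (fun l => l ∈ S), x ∈ S ∪ Q := by
      intro x hx
      rcases Finset.mem_union.1 hx with h1 | h1
      · exact Finset.mem_union_right _ h1
      · exact Finset.mem_union_left _ (Finset.mem_filter.1 h1).2
    rw [hWZ]
    refine Kr.iso (s := star) (q5 _ fun x hx => (Finset.mem_filter.1 hx).2) ?_ (fun z => star_star z)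
      ?_ ?_ ?_ ?_ ?_
    · rw [Finset.disjoint_left]
      intro x hx hxZ
      obtain ⟨m, hm⟩ := hZi x hxZ
      exact (iso m x hm).2.2.1 (hWP x hx)
    · intro x hx h1
      obtain ⟨m, hm⟩ := hZi x hx
      exact (iso m x hm).2.2.2.1 (hWP _ h1)
    · intro x hx
      obtain ⟨m, hm⟩ := hZi x hx
      exact (iso m x hm).2.1
    · intro x hx _
      obtain ⟨m, hm⟩ := hZi x hx
      exact (iso m x hm).2.2.2.2.1
    · intro x hx u hu h1 h2
      obtain ⟨m, hm⟩ := hZi x hx
      rcases Finset.mem_union.1 hu with h3 | h3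
      · exact (iso m x hm).2.2.2.2.2 u (hWP u h3)
      · obtain ⟨k, hk⟩ := hZi u h3
        by_cases hmk : m = k
        · subst hmk
          exfalso
          rcases hm with rfl | rfl <;> rcases hk with rfl | rfl
          · exact h1 rfl
          · exact h2 rfl
          · exact h2 (star_star _).symm
          · exact h1 rfl
        · exact (two m k hmk x u hm hk).2
    · intro x hx u hu
      obtain ⟨m, hm⟩ := hZi x hx
      rw [gA_comm (hP u (hWP u hu)) (iso m x hm).1]
      exact (iso m x hm).2.2.2.2.2 u (hWP u hu)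

end Pool.Agent.NH4.AG
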