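import Pool.Agent.NH4.AG.Ex2
import Pool.Agent.NH4.AF.Main

/-! The final theorem over the Gaussian integers. -/

set_option autoImplicit false

open NumberField
open scoped Classical

namespace Pool.Agent.NH4.AG

open Pool.Agent.Y697.MQ
open Pool.Agent.NH4.AF

/-- the number of a set of primes, stable under the conjugation -/
theorem exists_nat : ∀ n : ℕ, ∀ Q : Finset GaussianInt, Q.card = n →
    (∀ x ∈ Q, OP x ∧ star x ∈ Q ∧ star x ≠ x) →
    ∃ D : ℕ, ∏ q ∈ Q, q = (D : GaussianInt) ∧ Squarefree D ∧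
      ∀ p : ℕ, p.Prime → p ∣ D → p % 4 = 1 ∧ ∃ q ∈ Q, q * star q = (p : GaussianInt) := by
  intro n
  induction n using Nat.strong_induction_on with
  | _ n ih =>
    intro Q hn hQ
    rcases Q.eq_empty_or_nonempty with rfl | ⟨a, ha⟩
    · refine ⟨1, by simp, squarefree_one, fun p hp h1 => ?_⟩
      exact absurd (Nat.dvd_one.1 h1) hp.one_lt.ne'
    · obtain ⟨h1, h2, h3⟩ := hQ a ha
      obtain ⟨p, hp, hp4, hpn⟩ := norm_prime h1 h3
      have hpp : a * star a = (p : GaussianInt) := by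
        have e1 : ((a.norm : ℤ) : GaussianInt) = ((p : ℤ) : GaussianInt) := by
          congr 1
          rw [← hpn, Int.natCast_natAbs, abs_of_nonneg (GaussianInt.norm_nonneg _)]
        rw [← Zsqrtd.norm_eq_mul_conj, e1, Int.cast_natCast]
      set Q' := (Q.erase a).erase (star a) with hQ'
      have hsub : Q' ⊆ Q := (Finset.erase_subset _ _).trans (Finset.erase_subset _ _)
      have hsa : star a ∈ Q.erase a := Finset.mem_erase.2 ⟨h3, h2⟩
      have hprod : ∏ q ∈ Q, q = (p : GaussianInt) * ∏ q ∈ Q', q := by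
        rw [← Finset.mul_prod_erase Q (fun q => q) ha, ← Finset.mul_prod_erase (Q.erase a)
          (fun q => q) hsa, ← mul_assoc, hpp]
      obtain ⟨D, d1, d2, d3⟩ := ih Q'.card (by
        rw [← hn]
        refine Finset.card_lt_card ⟨hsub, fun h' => ?_⟩
        exact Finset.notMem_erase a Q (Finset.mem_of_mem_erase (h' ha))) Q' rfl (fun x hx => by
          obtain ⟨g1, g2⟩ := Finset.mem_erase.1 hx
          obtain ⟨g3, g4⟩ := Finset.mem_erase.1 g2
          obtain ⟨k1, k2, k3⟩ := hQ x g4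
          refine ⟨k1, Finset.mem_erase.2 ⟨fun h' => g3 (star_injective h'), Finset.mem_erase.2
            ⟨fun h' => g1 (by rw [← h', star_star]), k2⟩⟩, k3⟩)
      have hpD : ¬ p ∣ D := by
        intro hpD
        obtain ⟨-, q, hq, hqq⟩ := d3 p hp hpD
        have k1 := (hQ q (hsub hq)).1
        have k2 : q ∣ a * star a := by
          rw [hpp, ← hqq]
          exact dvd_mul_right _ _
        rcases k1.pr.dvd_or_dvd k2 with k3 | k3
        · have := k1.dvd h1 k3
          rw [this] at hq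
          exact Finset.notMem_erase a Q (Finset.mem_of_mem_erase hq)
        · have := k1.dvd h1.star k3
          rw [this] at hq
          exact Finset.notMem_erase _ _ hq
      refine ⟨p * D, by rw [hprod, d1]; push_cast; rfl, ?_, fun r hr hrD => ?_⟩
      · rw [Nat.squarefree_mul_iff]
        exact ⟨(Nat.Prime.coprime_iff_not_dvd hp).2 hpD, hp.prime.squarefree, d2⟩
      · rcases (Nat.Prime.dvd_mul hr).1 hrD with h | h
        · have : r = p := (Nat.prime_dvd_prime_iff_eq hr hp).1 h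
          rw [this]
          exact ⟨hp4, a, ha, hpp⟩
        · obtain ⟨k1, q, hq, hqq⟩ := d3 r hr h
          exact ⟨k1, q, hsub hq, hqq⟩

theorem final {S : Finset GaussianInt} (hS : ∀ l ∈ S, OP l ∧ star l ∈ S ∧ star l ≠ l) :
    ∃ R : Set GaussianInt, (∀ l ∈ S, l ∈ R) ∧ R.Infinite ∧
      (∀ l ∈ R, OP l ∧ star l ∈ R ∧ star l ≠ l) ∧
      {D : ℕ | Squarefree D ∧ (∀ p : ℕ, p.Prime → p ∣ D → p % 4 = 1) ∧
        ∀ (F : Type) [Field F] [NumberField F] (φ : F →+* ℂ),
          (∀ x, φ x ∈ Om R) → RZ F (D : ℤ)}.Infinite := by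
  obtain ⟨Q, f, h1, h2, h3, h5, h6⟩ := exists_all (S := S) (fun l hl => (hS l hl).1)
    (fun l hl => (hS l hl).2.1) (fun l hl => (hS l hl).2.2)
  choose D d1 d2 d3 using fun n => exists_nat _ (Qn Q f n) rfl (h1 n)
  have hR : ∀ l ∈ (S : Set GaussianInt) ∪ Lv f, OP l ∧ star l ∈ (S : Set GaussianInt) ∪ Lv f ∧
      star l ≠ l := by
    rintro l (hl | ⟨k, rfl | rfl⟩)
    · obtain ⟨g1, g3, g4⟩ := hS l hl
      exact ⟨g1, Or.inl g3, g4⟩
    · obtain ⟨g1, g3⟩ := h2 (2 * k)
      exact ⟨g1, Or.inr ⟨k, Or.inr rfl⟩, g3⟩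
    · obtain ⟨g1, g3⟩ := h2 (2 * k)
      refine ⟨g1.star, Or.inr ⟨k, Or.inl (star_star _)⟩, ?_⟩
      rw [star_star]
      exact g3.symm
  refine ⟨(S : Set GaussianInt) ∪ Lv f, fun l hl => Or.inl hl, ?_, hR, ?_⟩
  · apply Set.Infinite.mono Set.subset_union_right
    refine Set.infinite_of_injective_forall_mem (f := fun k => f (2 * k)) (fun a b hab => ?_)
      (fun k => ⟨k, Or.inl rfl⟩)
    by_contra hne
    exact (h3 (2 * a) (2 * b) (by omega)).1 hab
  · refine Set.infinite_of_injective_forall_mem (f := D) (fun m n hmn => ?_)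
      (fun n => ⟨d2 n, fun p hp hpD => (d3 n p hp hpD).1, ?_⟩)
    · by_contra hne
      have g1 : f (2 * m + 1) ∣ ((D m : ℕ) : GaussianInt) := by
        rw [← d1 m]
        exact Finset.dvd_prod_of_mem (fun q => q) (Finset.mem_insert_self _ _)
      rw [hmn, ← d1 n] at g1
      have g2 := (dvd_iff (fun l hl => (h1 n l hl).1) (h2 (2 * m + 1)).1).1 g1
      rcases Finset.mem_insert.1 g2 with g3 | g3
      · exact (h3 (2 * m + 1) (2 * n + 1) (by omega)).1 g3
      · rcases Finset.mem_insert.1 g3 with g3 | g3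
        · exact (h3 (2 * n + 1) (2 * m + 1) (by omega)).2 g3.symm
        · exact h5 (2 * m + 1) g3
    · intro F _ _ φ hφ
      refine NH4.AF.main (fun l hl => (hR l hl).1) φ hφ (Qn Q f n) (fun q hq => (h1 n q hq).1)
        (D n : ℤ) (by rw [d1 n]; push_cast; rfl) fun U hU => ?_
      obtain ⟨k1, k2⟩ := h6 n U hU
      exact ⟨k1, Pool.Agent.Y697.PP.gd_of_det (det_of_ker gA gθ k2)⟩

end Pool.Agent.NH4.AG
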