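import Pool.Agent.NH4.AF.Rat

/-! The kernels of the Laplacians over the field with two elements: three constructions. -/

set_option autoImplicit false

namespace Pool.Agent.NH4.AG

section dec

set_option linter.unusedVariables false
set_option synthInstance.maxSize 2000

theorem d11 : ∀ (p p' q q' r r' : ZMod 2),
    0 * p + (0 + (0 * (p + p') + (0 * (p + q) + (1 * (p + q') + (p + r))))) = 0 →
      0 * p' + (0 * (p' + p) + (0 + (1 * (p' + q) + (0 * (p' + q') + (p' + r'))))) = 0 →
        1 * q + (0 * (q + p) + (1 * (q + p') + (0 + (1 * (q + q') + (q + r))))) = 0 →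
          1 * q' + (1 * (q' + p) + (0 * (q' + p') + (1 * (q' + q) + (0 + (q' + r'))))) = 0 →
            r = q' ∧ r' = q ∧ p = 0 ∧ p' = 0 := by decide

theorem d10 : ∀ (p p' q q' r : ZMod 2),
    0 * p + (0 + (0 * (p + p') + (0 * (p + q) + (1 * (p + q') + (p + r))))) = 0 →
      0 * p' + (0 * (p' + p) + (0 + (1 * (p' + q) + (0 * (p' + q') + 0)))) = 0 →
        1 * q + (0 * (q + p) + (1 * (q + p') + (0 + (1 * (q + q') + (q + r))))) = 0 →
          1 * q' + (1 * (q' + p) + (0 * (q' + p') + (1 * (q' + q) + (0 + 0)))) = 0 →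
            r = q' ∧ 0 = q ∧ p = q' ∧ p' = 0 := by decide

theorem d01 : ∀ (p p' q q' r' : ZMod 2),
    0 * p + (0 + (0 * (p + p') + (0 * (p + q) + (1 * (p + q') + 0)))) = 0 →
      0 * p' + (0 * (p' + p) + (0 + (1 * (p' + q) + (0 * (p' + q') + (p' + r'))))) = 0 →
        1 * q + (0 * (q + p) + (1 * (q + p') + (0 + (1 * (q + q') + 0)))) = 0 →
          1 * q' + (1 * (q' + p) + (0 * (q' + p') + (1 * (q' + q) + (0 + (q' + r'))))) = 0 →
            0 = q' ∧ r' = q ∧ p = 0 ∧ p' = q := by decide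

theorem d00 : ∀ (p p' q q' : ZMod 2),
    0 * p + (0 + (0 * (p + p') + (0 * (p + q) + (1 * (p + q') + 0)))) = 0 →
      0 * p' + (0 * (p' + p) + (0 + (1 * (p' + q) + (0 * (p' + q') + 0)))) = 0 →
        1 * q + (0 * (q + p) + (1 * (q + p') + (0 + (1 * (q + q') + 0)))) = 0 →
          1 * q' + (1 * (q' + p) + (0 * (q' + p') + (1 * (q' + q) + (0 + 0)))) = 0 →
            0 = q' ∧ 0 = q ∧ p = q' ∧ p' = q := by decide

theorem e1 : ∀ (s r q c x : ZMod 2),
    c * r + (1 * (r + 0) + (0 * (r + x) + (1 * (r + q) + (0 * (r + r) + s)))) = 0 →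
      (c + (1 + 0)) * r + (s + (r + q + 0)) = 0 := by decide

theorem e2 : ∀ (s r c x : ZMod 2),
    c * r + (1 * (r + r) + (0 * (r + x) + (1 * (r + 0) + (0 * (r + r) + s)))) = 0 →
      (c + (1 + 0)) * r + (s + (0 + 0)) = 0 := by decide

theorem e3 : ∀ (s r q c x : ZMod 2),
    c * r + (0 * (r + x) + (1 * (r + 0) + (0 * (r + r) + (1 * (r + q) + s)))) = 0 →
      (c + (0 + 1)) * r + (s + (0 + (r + q))) = 0 := by decide

theorem e4 : ∀ (s r c x : ZMod 2),
    c * r + (0 * (r + x) + (1 * (r + r) + (0 * (r + r) + (1 * (r + 0) + s)))) = 0 →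
      (c + (0 + 1)) * r + (s + (0 + 0)) = 0 := by decide

end dec

variable {V : Type} {A A' : V → V → ZMod 2} {θ θ' : V → ZMod 2}

/-- the kernel of the Laplacian on `W` is zero -/
def Kr (A : V → V → ZMod 2) (θ : V → ZMod 2) (W : Finset V) : Prop :=
  ∀ t : V → ZMod 2, (∀ v ∈ W, θ v * t v + ∑ u ∈ W, A v u * (t v + t u) = 0) → ∀ v ∈ W, t v = 0

theorem dbl (x : ZMod 2) : x + x = 0 := by revert x; decide

theorem z01 (x : ZMod 2) : x = 0 ∨ x = 1 := by revert x; decide

variable [DecidableEq V]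

/-- **isolated pairs** -/
theorem Kr.iso {W Z : Finset V} {s : V → V} (h : Kr A θ W) (hd : Disjoint W Z)
    (hss : ∀ z, s (s z) = z) (hsW : ∀ z ∈ Z, s z ∉ W)
    (hθ : ∀ z ∈ Z, θ z = 1) (hA1 : ∀ z ∈ Z, s z ∈ Z → A z (s z) = 1)
    (hA0 : ∀ z ∈ Z, ∀ u ∈ W ∪ Z, u ≠ z → u ≠ s z → A z u = 0)
    (hA2 : ∀ z ∈ Z, ∀ u ∈ W, A u z = 0) : Kr A θ (W ∪ Z) := by
  intro t ht
  have row : ∀ z ∈ Z, (s z ∈ Z → t (s z) = 0) ∧ (s z ∉ Z → t z = 0) := by
    intro z hz
    have h1 := ht z (Finset.mem_union_right _ hz)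
    rw [hθ z hz, one_mul] at h1
    constructor
    · intro hsZ
      rw [Finset.sum_eq_single (s z) (fun u hu hus => ?_)
        (fun hn => absurd (Finset.mem_union_right _ hsZ) hn), hA1 z hz hsZ, one_mul, ← add_assoc,
        dbl, zero_add] at h1
      · exact h1
      · by_cases huz : u = z
        · rw [huz, dbl, mul_zero]
        · rw [hA0 z hz u hu huz hus, zero_mul]
    · intro hsZ
      rw [Finset.sum_eq_zero (fun u hu => ?_), add_zero] at h1
      · exact h1
      · by_cases huz : u = z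
        · rw [huz, dbl, mul_zero]
        · rw [hA0 z hz u hu huz ?_, zero_mul]
          rintro rfl
          rcases Finset.mem_union.1 hu with h2 | h2
          · exact hsW z hz h2
          · exact hsZ h2
  have hZ : ∀ z ∈ Z, t z = 0 := by
    intro z hz
    by_cases hsZ : s z ∈ Z
    · have := (row (s z) hsZ).1 (by rw [hss]; exact hz)
      rwa [hss] at this
    · exact (row z hz).2 hsZ
  have hW : ∀ v ∈ W, t v = 0 := by
    refine h t fun v hv => ?_
    have h1 := ht v (Finset.mem_union_left _ hv)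
    rw [Finset.sum_union hd, Finset.sum_eq_zero (s := Z) (fun z hz => by
      rw [hA2 z hz v hv, zero_mul]), add_zero] at h1
    exact h1
  intro v hv
  rcases Finset.mem_union.1 hv with h1 | h1
  · exact hW v h1
  · exact hZ v h1

/-- **the complete graph with pendant vertices** -/
theorem Kr.base {Q U : Finset V} (hQU : Disjoint Q U) (hev : (Q.card : ZMod 2) = 0)
    (hθQ : ∀ x ∈ Q, θ x = 1) (hQQ : ∀ x ∈ Q, ∀ y ∈ Q, x ≠ y → A x y = 1)
    (hθU : ∀ l ∈ U, θ l = 0) (hsym : ∀ x ∈ Q, ∀ l ∈ U, A l x = A x l)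
    (hone : ∀ x ∈ Q, ∀ l ∈ U, ∀ m ∈ U, A x l ≠ 0 → A x m ≠ 0 → l = m)
    (hex : ∀ l ∈ U, ∃ x ∈ Q, A x l ≠ 0 ∧ ∀ y ∈ Q, A y l ≠ 0 → y = x) :
    Kr A θ (Q ∪ U) := by
  intro t ht
  set T : ZMod 2 := ∑ u ∈ Q, t u with hT
  have n1 : ∀ x : ZMod 2, x ≠ 0 → x = 1 := by decide
  -- the rows of `Q`
  have rowQ : ∀ x ∈ Q, t x + T + ∑ l ∈ U, A x l * (t x + t l) = 0 := by
    intro x hx
    have h1 := ht x (Finset.mem_union_left _ hx)
    have h2 : ∑ u ∈ Q, A x u * (t x + t u) = T := by
      have h3 : ∑ u ∈ Q, A x u * (t x + t u) = ∑ u ∈ Q, (t x + t u) := by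
        refine Finset.sum_congr rfl fun u hu => ?_
        by_cases hxu : x = u
        · rw [hxu, dbl, mul_zero]
        · rw [hQQ x hx u hu hxu, one_mul]
      rw [h3, Finset.sum_add_distrib, Finset.sum_const, nsmul_eq_mul, hev, zero_mul, zero_add]
    rw [Finset.sum_union hQU, h2, hθQ x hx, one_mul, ← add_assoc] at h1
    exact h1
  -- the value at the elements of `U`
  have hU : ∀ l ∈ U, t l = T := by
    intro l hl
    obtain ⟨x, hx, hxl, -⟩ := hex l hl
    have h1 := rowQ x hx
    rw [Finset.sum_eq_single l (fun m hm hml => by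
      by_contra h2
      exact hml (hone x hx m hm l hl (left_ne_zero_of_mul h2) hxl))
      (fun hn => absurd hl hn), n1 _ hxl, one_mul] at h1
    have h2 : t x + T + (t x + t l) = (t x + t x) + (T + t l) := by ring
    rw [h2, dbl, zero_add] at h1
    have h3 := dbl T
    linear_combination h1 - h3
  have hQT : ∀ x ∈ Q, t x = T := by
    intro x hx
    by_cases hxl : ∃ l ∈ U, A x l ≠ 0
    · obtain ⟨l, hl, hxl⟩ := hxl
      obtain ⟨y, hy, hyl, huni⟩ := hex l hl
      have h1 := ht l (Finset.mem_union_right _ hl)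
      rw [Finset.sum_union hQU, hθU l hl, zero_mul, zero_add, Finset.sum_eq_single x (fun z hz hzx => by
          rw [hsym z hz l hl]
          by_contra h2
          exact hzx ((huni z hz (left_ne_zero_of_mul h2)).trans (huni x hx hxl).symm))
        (fun hn => absurd hx hn), Finset.sum_eq_zero (s := U) (fun m hm => by
          rw [hU l hl, hU m hm, dbl, mul_zero]), add_zero, hsym x hx l hl, n1 _ hxl, one_mul,
        hU l hl] at h1
      have h3 := dbl T
      linear_combination h1 - h3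
    · push Not at hxl
      have h1 := rowQ x hx
      rw [Finset.sum_eq_zero (fun l hl => by rw [hxl l hl, zero_mul]), add_zero] at h1
      have h3 := dbl T
      linear_combination h1 - h3
  have hT0 : T = 0 := by
    rw [hT, Finset.sum_congr rfl hQT, Finset.sum_const, nsmul_eq_mul, hev, zero_mul]
  intro v hv
  rcases Finset.mem_union.1 hv with h1 | h1
  · rw [hQT v h1, hT0]
  · rw [hU v h1, hT0]

/-- **four vertices that change `θ` at `l` and `l'`** -/
theorem Kr.four {W : Finset V} {l l' y y' z z' : V} (h : Kr A' θ' W) (hll : l ≠ l')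
    (hy : y ∉ W) (hy' : y' ∉ W) (hz : z ∉ W) (hz' : z' ∉ W)
    (n1 : y ≠ y') (n2 : y ≠ z) (n3 : y ≠ z') (n4 : y' ≠ z) (n5 : y' ≠ z') (n6 : z ≠ z')
    (ty : θ y = 0) (ty' : θ y' = 0) (tz : θ z = 1) (tz' : θ z' = 1)
    (a1 : A y y' = 0) (a2 : A y' y = 0) (a3 : A y z = 0) (a4 : A z y = 0) (a5 : A y' z' = 0)
    (a6 : A z' y' = 0) (a7 : A y z' = 1) (a8 : A z' y = 1) (a9 : A y' z = 1) (a10 : A z y' = 1)
    (a11 : A z z' = 1) (a12 : A z' z = 1)
    (b1 : ∀ u ∈ W, A y u = if u = l then 1 else 0) (b2 : ∀ u ∈ W, A u y = if u = l then 1 else 0)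
    (b3 : ∀ u ∈ W, A z u = if u = l then 1 else 0) (b4 : ∀ u ∈ W, A u z = if u = l then 1 else 0)
    (b5 : ∀ u ∈ W, A y' u = if u = l' then 1 else 0)
    (b6 : ∀ u ∈ W, A u y' = if u = l' then 1 else 0)
    (b7 : ∀ u ∈ W, A z' u = if u = l' then 1 else 0)
    (b8 : ∀ u ∈ W, A u z' = if u = l' then 1 else 0)
    (hA' : ∀ v ∈ W, ∀ u ∈ W, A' v u = A v u + ((if v = l ∧ u = l' then 1 else 0) +
      if v = l' ∧ u = l then 1 else 0))
    (hθ' : ∀ v ∈ W, θ' v = θ v + ((if v = l then 1 else 0) + if v = l' then 1 else 0)) :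
    Kr A θ (insert y (insert y' (insert z (insert z' W)))) := by
  intro t ht
  have m1 : y ∉ insert y' (insert z (insert z' W)) := by
    simp only [Finset.mem_insert, not_or]
    exact ⟨n1, n2, n3, hy⟩
  have m2 : y' ∉ insert z (insert z' W) := by
    simp only [Finset.mem_insert, not_or]
    exact ⟨n4, n5, hy'⟩
  have m3 : z ∉ insert z' W := by
    simp only [Finset.mem_insert, not_or]
    exact ⟨n6, hz⟩
  have exp : ∀ v, (∑ u ∈ insert y (insert y' (insert z (insert z' W))), A v u * (t v + t u)) =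
      A v y * (t v + t y) + (A v y' * (t v + t y') + (A v z * (t v + t z) +
        (A v z' * (t v + t z') + ∑ u ∈ W, A v u * (t v + t u)))) := by
    intro v
    rw [Finset.sum_insert m1, Finset.sum_insert m2, Finset.sum_insert m3, Finset.sum_insert hz']
  -- the sums over `W` in the new rows
  have sm : ∀ (c : ZMod 2) (x a : V), (∀ u ∈ W, A x u = if u = a then 1 else 0) →
      ∑ u ∈ W, A x u * (c + t u) = if a ∈ W then c + t a else 0 := by
    intro c x a hx
    split_ifs with ha
    · rw [Finset.sum_eq_single a (fun u hu hua => by rw [hx u hu, if_neg hua, zero_mul])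
        (fun hn => absurd ha hn), hx a ha, if_pos rfl, one_mul]
    · exact Finset.sum_eq_zero fun u hu => by
        rw [hx u hu, if_neg (by rintro rfl; exact ha hu), zero_mul]
  have ry := ht y (by simp)
  rw [exp, ty, a1, a3, a7, sm _ _ _ b1] at ry
  have ry' := ht y' (by simp)
  rw [exp, ty', a2, a9, a5, sm _ _ _ b5] at ry'
  have rz := ht z (by simp)
  rw [exp, tz, a4, a10, a11, sm _ _ _ b3] at rz
  have rz' := ht z' (by simp)
  rw [exp, tz', a8, a6, a12, sm _ _ _ b7] at rz'
  have dy : A y y * (t y + t y) = 0 := by rw [dbl, mul_zero]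
  have dy' : A y' y' * (t y' + t y') = 0 := by rw [dbl, mul_zero]
  have dz : A z z * (t z + t z) = 0 := by rw [dbl, mul_zero]
  have dz' : A z' z' * (t z' + t z') = 0 := by rw [dbl, mul_zero]
  rw [dy] at ry
  rw [dy'] at ry'
  rw [dz] at rz
  rw [dz'] at rz'
  -- the solution
  have key : ((if l ∈ W then t l else 0) = t z') ∧ ((if l' ∈ W then t l' else 0) = t z) ∧
      (t y = if l' ∈ W then 0 else t z') ∧ (t y' = if l ∈ W then 0 else t z) := by
    by_cases hl : l ∈ W <;> by_cases hl' : l' ∈ W <;>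
      simp only [hl, hl', if_true, if_false] at ry ry' rz rz' ⊢
    · exact d11 _ _ _ _ _ _ ry ry' rz rz'
    · exact d10 _ _ _ _ _ ry ry' rz rz'
    · exact d01 _ _ _ _ _ ry ry' rz rz'
    · exact d00 _ _ _ _ ry ry' rz rz'
  obtain ⟨k1, k2, k3, k4⟩ := key
  have hW : ∀ v ∈ W, t v = 0 := by
    refine h t fun v hv => ?_
    have h1 := ht v (by simp [hv])
    rw [exp, b2 v hv, b6 v hv, b4 v hv, b8 v hv] at h1
    have h2 : ∑ u ∈ W, A' v u * (t v + t u) = ∑ u ∈ W, A v u * (t v + t u) +
        ((if v = l then (if l' ∈ W then t v + t l' else 0) else 0) +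
          (if v = l' then (if l ∈ W then t v + t l else 0) else 0)) := by
      have h3 : ∑ u ∈ W, A' v u * (t v + t u) = ∑ u ∈ W, (A v u * (t v + t u) +
          ((if v = l ∧ u = l' then 1 else 0) * (t v + t u) +
            (if v = l' ∧ u = l then 1 else 0) * (t v + t u))) :=
        Finset.sum_congr rfl fun u hu => by rw [hA' v hv u hu]; ring
      rw [h3, Finset.sum_add_distrib, Finset.sum_add_distrib]
      have h4 : ∀ a b : V, ∑ u ∈ W, (if v = a ∧ u = b then (1 : ZMod 2) else 0) * (t v + t u) =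
          if v = a then (if b ∈ W then t v + t b else 0) else 0 := by
        intro a b
        by_cases hva : v = a
        · rw [if_pos hva]
          by_cases hb : b ∈ W
          · rw [if_pos hb, Finset.sum_eq_single b (fun u hu hub => by
              rw [if_neg (fun h' => hub h'.2), zero_mul]) (fun hn => absurd hb hn),
              if_pos ⟨hva, rfl⟩, one_mul]
          · rw [if_neg hb]
            exact Finset.sum_eq_zero fun u hu => by
              rw [if_neg (by rintro ⟨-, rfl⟩; exact hb hu), zero_mul]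
        · rw [if_neg hva]
          exact Finset.sum_eq_zero fun u hu => by rw [if_neg (fun h' => hva h'.1), zero_mul]
      rw [h4 l l', h4 l' l]
    rw [h2, hθ' v hv]
    by_cases hvl : v = l
    · subst hvl
      have hvl' : ¬ v = l' := hll
      simp only [if_neg hvl', if_true, if_pos hv] at h1 k1 k4 ⊢
      rw [k3] at h1
      split_ifs at h1 k2 ⊢ with hl'
      · rw [k2]
        rw [← k1] at h1
        exact e1 _ _ _ _ _ h1
      · rw [← k1, ← k2] at h1
        exact e2 _ _ _ _ h1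
    · by_cases hvl' : v = l'
      · subst hvl'
        simp only [if_neg hvl, if_true, if_pos hv] at h1 k2 k3 ⊢
        rw [k4] at h1
        split_ifs at h1 k1 ⊢ with hl
        · rw [k1]
          rw [← k2] at h1
          exact e3 _ _ _ _ _ h1
        · rw [← k1, ← k2] at h1
          exact e4 _ _ _ _ h1
      · simp only [if_neg hvl, if_neg hvl', zero_mul, zero_add, add_zero] at h1 ⊢
        exact h1
  have e1 : t z' = 0 := by
    rw [← k1]
    split_ifs with hl
    · exact hW l hl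
    · rfl
  have e2 : t z = 0 := by
    rw [← k2]
    split_ifs with hl
    · exact hW l' hl
    · rfl
  intro v hv
  simp only [Finset.mem_insert] at hv
  rcases hv with rfl | rfl | rfl | rfl | hv
  · rw [k3, e1, ite_self]
  · rw [k4, e2, ite_self]
  · exact e2
  · exact e1
  · exact hW v hv

/-- only the values on `W` matter -/
theorem Kr.congr {W : Finset V} (h : Kr A θ W) (hA : ∀ v ∈ W, ∀ u ∈ W, A' v u = A v u)
    (hθ : ∀ v ∈ W, θ' v = θ v) : Kr A' θ' W := by
  intro t ht
  refine h t fun v hv => ?_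
  rw [← ht v hv, hθ v hv]
  congr 1
  exact Finset.sum_congr rfl fun u hu => by rw [hA v hv u hu]

end Pool.Agent.NH4.AG
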